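import Mathlib

open scoped TensorProduct

namespace Pool.Agent.Lib.Caf1090

universe u

section Identities

variable (F : Type u) [Field F]

/-- Nonassociative polynomials over `F` in the variables `x_0, x_1, x_2, …`. -/
abbrev NAPoly : Type u := FreeNonUnitalNonAssocAlgebra F ℕ

/-- The variable `x_n`. -/
noncomputable def var (n : ℕ) : NAPoly F := FreeNonUnitalNonAssocAlgebra.of F n

/-- The algebra `A` satisfies the identity `f = 0`. -/
def Satisfies (A : Type u) [NonUnitalNonAssocRing A] [Module F A] [IsScalarTower F A A]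
    [SMulCommClass F A A] (f : NAPoly F) : Prop :=
  ∀ a : ℕ → A, FreeNonUnitalNonAssocAlgebra.lift F a f = 0

/-- The polynomial `f` vanishes whenever elements of the subset `S` of the algebra `A` are
substituted for the variables. -/
def VanishesOn (A : Type u) [NonUnitalNonAssocRing A] [Module F A] [IsScalarTower F A A]
    [SMulCommClass F A A] (S : Set A) (f : NAPoly F) : Prop :=
  ∀ a : ℕ → A, (∀ n, a n ∈ S) → FreeNonUnitalNonAssocAlgebra.lift F a f = 0

/-- `f = 0` is an identity of the variety defined by the identities in `T`, i.e. it holds in every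
algebra over `F` which satisfies all the identities in `T`. -/
def IdentityOf (T : Set (NAPoly F)) (f : NAPoly F) : Prop :=
  ∀ (A : Type u) [NonUnitalNonAssocRing A] [Module F A] [IsScalarTower F A A]
    [SMulCommClass F A A], (∀ g ∈ T, Satisfies F A g) → Satisfies F A f

/-- `J(a, b, c) = ab·c + bc·a + ca·b`. -/
def jac {A : Type u} [NonUnitalNonAssocRing A] (a b c : A) : A :=
  a * b * c + b * c * a + c * a * b

/-- The identity `(x₀x₁·x₂)(x₃x₄·x₅) = 0`, saying that `(A³)² = 0`. -/
noncomputable def cubeSq : NAPoly F :=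
  (var F 0 * var F 1 * var F 2) * (var F 3 * var F 4 * var F 5)

/-- The identities of the Malcev algebras `A` with `(A³)² = 0`: anticommutativity, the Malcev
identity `J(x,y,z)x = J(x,y,xz)`, and `(x₀x₁·x₂)(x₃x₄·x₅) = 0`. -/
noncomputable def malcevT : Set (NAPoly F) :=
  {var F 0 * var F 1 + var F 1 * var F 0,
    jac (var F 0) (var F 1) (var F 2) * var F 0 -
      jac (var F 0) (var F 1) (var F 0 * var F 2),
    cubeSq F}

/-- The identities of the Lie algebras `A` with `(A³)² = 0`: anticommutativity, the Jacobi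
identity, and `(x₀x₁·x₂)(x₃x₄·x₅) = 0`. -/
noncomputable def lieT : Set (NAPoly F) :=
  {var F 0 * var F 1 + var F 1 * var F 0, jac (var F 0) (var F 1) (var F 2), cubeSq F}

/-- `solv F k n` is the polynomial `s_k` in the variables `x_n, …, x_{n+2^k-1}`: `s_0 = x_n`, and
`s_{k+1}` is the product of two copies of `s_k` in disjoint variables. -/
noncomputable def solv : ℕ → ℕ → NAPoly F
  | 0, n => var F n
  | k + 1, n => solv k n * solv k (n + 2 ^ k)

end Identities

section Super

variable {F : Type u} [Field F] {B : Type u} [NonUnitalNonAssocRing B] [Module F B]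
  [IsScalarTower F B B] [SMulCommClass F B B]

/-- `B = 𝒷 0 ⊕ 𝒷 1` is a superalgebra. -/
structure IsSuperalgebra (𝒷 : ZMod 2 → Submodule F B) : Prop where
  isCompl : IsCompl (𝒷 0) (𝒷 1)
  mul_mem : ∀ {i j : ZMod 2} {a b : B}, a ∈ 𝒷 i → b ∈ 𝒷 j → a * b ∈ 𝒷 (i + j)

/-- The Grassmann algebra on the generators `e_0, e_1, e_2, …`. -/
noncomputable abbrev Gr (F : Type u) [Field F] : Type u := ExteriorAlgebra F (ℕ →₀ F)

/-- The even part (`i = 0`) and the odd part (`i = 1`) of the Grassmann algebra. -/
noncomputable def grPart (F : Type u) [Field F] (i : ZMod 2) : Submodule F (Gr F) :=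
  CliffordAlgebra.evenOdd (0 : QuadraticForm F (ℕ →₀ F)) i

lemma grPart_mul {i j : ZMod 2} {x y : Gr F} (hx : x ∈ grPart F i) (hy : y ∈ grPart F j) :
    x * y ∈ grPart F (i + j) :=
  CliffordAlgebra.evenOdd_mul_le (0 : QuadraticForm F (ℕ →₀ F)) i j (Submodule.mul_mem_mul hx hy)

/-- The set of the elements `g ⊗ b` with `g` and `b` of the same parity. -/
def envSet (𝒷 : ZMod 2 → Submodule F B) : Set (Gr F ⊗[F] B) :=
  {z | ∃ i : ZMod 2, ∃ g ∈ grPart F i, ∃ b ∈ 𝒷 i, z = g ⊗ₜ b}

/-- The Grassmann envelope `G(B) = G₀ ⊗ B₀ + G₁ ⊗ B₁`: the span of the elements `g ⊗ b` with `g` and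
`b` of the same parity. -/
noncomputable def env (𝒷 : ZMod 2 → Submodule F B) : Submodule F (Gr F ⊗[F] B) :=
  Submodule.span F (envSet 𝒷)

/-- The Grassmann envelope `G(B) = G₀ ⊗ B₀ + G₁ ⊗ B₁ ⊆ G ⊗ B` satisfies the identity `f = 0`: the
polynomial `f` vanishes whenever elements of `G(B)` are substituted for the variables. -/
def EnvelopeSatisfies (𝒷 : ZMod 2 → Submodule F B) (f : NAPoly F) : Prop :=
  VanishesOn F (Gr F ⊗[F] B) (env 𝒷) f

/-- The superalgebra `B` is generated by the even elements `e a` and the odd elements `o b`. -/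
def Generates (𝒷 : ZMod 2 → Submodule F B) {r s : ℕ} (e : Fin r → B) (o : Fin s → B) : Prop :=
  (∀ a, e a ∈ 𝒷 0) ∧ (∀ b, o b ∈ 𝒷 1) ∧
    NonUnitalAlgebra.adjoin F (Set.range e ∪ Set.range o) = ⊤

variable (F) in
/-- The variety defined by the identities in `T` is generated by the Grassmann envelope of some
superalgebra generated by `r` even and `s` odd elements: the identities of the Grassmann envelope
are the identities of the variety.  With the notation of the problem this says that
`V_{r,s} = Ṽ`. -/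
def IsGeneratedBySuper (T : Set (NAPoly F)) (r s : ℕ) : Prop :=
  ∃ (B : Type u) (_ : NonUnitalNonAssocRing B) (_ : Module F B) (_ : IsScalarTower F B B)
    (_ : SMulCommClass F B B) (𝒷 : ZMod 2 → Submodule F B) (e : Fin r → B) (o : Fin s → B),
      IsSuperalgebra 𝒷 ∧ Generates 𝒷 e o ∧
      ∀ f : NAPoly F, EnvelopeSatisfies 𝒷 f ↔ IdentityOf F T f

end Super

end Pool.Agent.Lib.Caf1090
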