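import Mathlib

namespace Pool.Agent.Lib.Caf1090

open Finset Matrix

variable {R : Type*} [CommRing R] {n r s : ℕ}

/-- The rows: multiples of `r` fixed rows, and nilpotent rows. -/
def rowOf (κ : Fin n → Fin r → R) (w : Fin r → Fin n → R) (v : Fin n → Fin s → Fin n → R)
    (i : Fin n) : Fin r ⊕ Fin s → Fin n → R
  | .inl a => κ i a • w a
  | .inr b => v i b

/-- The set of nilpotent rows that are used. -/
def nilSet (τ : Fin n → Fin r ⊕ Fin s) : Finset (Fin n × Fin s) :=
  Finset.univ.filter (fun q => τ q.1 = .inr q.2)

lemma det_eq_zero_of_card {q : ℕ} (hn : n = r + q) (κ : Fin n → Fin r → R)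
    (w : Fin r → Fin n → R) (v : Fin n → Fin s → Fin n → R) (τ : Fin n → Fin r ⊕ Fin s)
    (hτ : (nilSet τ).card < q) : (Matrix.of fun i => rowOf κ w v i (τ i)).det = 0 := by
  classical
  by_cases h : ∃ i i' : Fin n, i ≠ i' ∧ ∃ a : Fin r, τ i = .inl a ∧ τ i' = .inl a
  · obtain ⟨i, i', hii, a, h1, h2⟩ := h
    set M : Matrix (Fin n) (Fin n) R := Matrix.of fun i => rowOf κ w v i (τ i) with hM
    have e1 : M = M.updateRow i (κ i a • w a) := by
      ext x y
      by_cases hx : x = i
      · subst hx
        rw [Matrix.updateRow_self, hM, Matrix.of_apply, h1]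
        rfl
      · rw [Matrix.updateRow_ne hx]
    have e2 : M.updateRow i (w a) = (M.updateRow i (w a)).updateRow i' (κ i' a • w a) := by
      ext x y
      by_cases hx : x = i'
      · subst hx
        rw [Matrix.updateRow_self, Matrix.updateRow_ne (Ne.symm hii), hM, Matrix.of_apply, h2]
        rfl
      · rw [Matrix.updateRow_ne hx]
    rw [e1, Matrix.det_updateRow_smul, e2, Matrix.det_updateRow_smul,
      Matrix.det_zero_of_row_eq hii, mul_zero, mul_zero]
    rw [Matrix.updateRow_self, Matrix.updateRow_ne hii, Matrix.updateRow_self]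
  · exfalso
    push Not at h
    let g : Fin n → Fin r ⊕ (nilSet τ) := fun i =>
      match h' : τ i with
      | .inl a => .inl a
      | .inr b => .inr ⟨(i, b), by simp [nilSet, h']⟩
    have hg : Function.Injective g := by
      intro i i' hii
      by_contra hne
      rcases h1 : τ i with a | b <;> rcases h2 : τ i' with a' | b'
      · have h3 : g i = .inl a := by
          simp only [g]; split <;> simp_all
        have h4 : g i' = .inl a' := by
          simp only [g]; split <;> simp_all
        rw [h3, h4] at hii
        have h5 : a = a' := by simpa using hii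
        subst h5
        exact h i i' hne a h1 h2
      · have h3 : g i = .inl a := by
          simp only [g]; split <;> simp_all
        have h4 : ∃ z, g i' = .inr z := by
          simp only [g]; split <;> simp_all
        obtain ⟨z, hz⟩ := h4
        rw [h3, hz] at hii
        cases hii
      · have h3 : g i' = .inl a' := by
          simp only [g]; split <;> simp_all
        have h4 : ∃ z, g i = .inr z := by
          simp only [g]; split <;> simp_all
        obtain ⟨z, hz⟩ := h4
        rw [h3, hz] at hii
        cases hii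
      · have h3 : ∃ z, g i = .inr z ∧ z.1.1 = i := by
          simp only [g]; split <;> simp_all
        have h4 : ∃ z, g i' = .inr z ∧ z.1.1 = i' := by
          simp only [g]; split <;> simp_all
        obtain ⟨z, hz, hz'⟩ := h3
        obtain ⟨y, hy, hy'⟩ := h4
        rw [hz, hy] at hii
        have h5 : z = y := by simpa using hii
        apply hne
        rw [← hz', ← hy', h5]
    have hc := Fintype.card_le_of_injective g hg
    rw [Fintype.card_sum, Fintype.card_fin, Fintype.card_fin, Fintype.card_coe] at hc
    omega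

lemma det_mul_det_eq_zero (κ : Fin n → Fin r → R)
    (w : Fin r → Fin n → R) (v : Fin n → Fin s → Fin n → R)
    (hv : ∀ i b j j', v i b j * v i b j' = 0) (τ τ' : Fin n → Fin r ⊕ Fin s)
    (hτ : ¬ Disjoint (nilSet τ) (nilSet τ')) :
    (Matrix.of fun i => rowOf κ w v i (τ i)).det *
      (Matrix.of fun i => rowOf κ w v i (τ' i)).det = 0 := by
  rw [Finset.not_disjoint_iff] at hτ
  obtain ⟨⟨i, b⟩, h1, h2⟩ := hτ
  simp only [nilSet, Finset.mem_filter, Finset.mem_univ, true_and] at h1 h2
  rw [Matrix.det_eq_sum_mul_adjugate_row _ i,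
    Matrix.det_eq_sum_mul_adjugate_row (Matrix.of fun i => rowOf κ w v i (τ' i)) i,
    Finset.sum_mul_sum]
  apply Finset.sum_eq_zero
  intro j _
  apply Finset.sum_eq_zero
  intro j' _
  rw [Matrix.of_apply, Matrix.of_apply, h1, h2]
  simp only [rowOf]
  rw [mul_mul_mul_comm, hv, zero_mul]

theorem det_pow_eq_zero {q m : ℕ} (hn : n = r + q) (hm : n * s < m * q)
    (κ : Fin n → Fin r → R) (w : Fin r → Fin n → R) (v : Fin n → Fin s → Fin n → R)
    (hv : ∀ i b j j', v i b j * v i b j' = 0) :
    (Matrix.of fun i j => (∑ a, κ i a * w a j) + ∑ b, v i b j).det ^ m = 0 := by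
  classical
  have h1 : (Matrix.of fun i j => (∑ a, κ i a * w a j) + ∑ b, v i b j).det =
      ∑ τ : Fin n → Fin r ⊕ Fin s, (Matrix.of fun i => rowOf κ w v i (τ i)).det := by
    have h := (Matrix.detRowAlternating (n := Fin n) (R := R)).toMultilinearMap.map_sum
      (fun i t => rowOf κ w v i t)
    have h2 : (fun i => ∑ t, rowOf κ w v i t) =
        (fun i j => (∑ a, κ i a * w a j) + ∑ b, v i b j) := by
      ext i j
      rw [Fintype.sum_sum_type, Pi.add_apply, Finset.sum_apply, Finset.sum_apply]
      rfl
    rw [h2] at h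
    exact h
  rw [h1, ← Fin.prod_const m, Finset.prod_univ_sum]
  apply Finset.sum_eq_zero
  intro t _
  by_cases hd : ∀ j j', j ≠ j' → Disjoint (nilSet (t j)) (nilSet (t j'))
  · by_contra hne
    have hcard : ∀ j, q ≤ (nilSet (t j)).card := by
      intro j
      by_contra hlt
      apply hne
      exact Finset.prod_eq_zero (Finset.mem_univ j)
        (det_eq_zero_of_card hn κ w v (t j) (not_le.1 hlt))
    have h3 : (Finset.univ.biUnion fun j => nilSet (t j)).card = ∑ j, (nilSet (t j)).card :=
      Finset.card_biUnion (fun j _ j' _ hjj => hd j j' hjj)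
    have h4 : (Finset.univ.biUnion fun j => nilSet (t j)).card ≤ n * s := by
      refine (Finset.card_le_univ _).trans ?_
      rw [Fintype.card_prod, Fintype.card_fin, Fintype.card_fin]
    have h5 : m * q ≤ ∑ j : Fin m, (nilSet (t j)).card := by
      calc m * q = ∑ _j : Fin m, q := by simp
        _ ≤ _ := Finset.sum_le_sum (fun j _ => hcard j)
    omega
  · push Not at hd
    obtain ⟨j, j', hjj, hdis⟩ := hd
    rw [← Finset.mul_prod_erase _ _ (Finset.mem_univ j), ← Finset.mul_prod_erase _ _
      (Finset.mem_erase.2 ⟨Ne.symm hjj, Finset.mem_univ j'⟩), ← mul_assoc,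
      det_mul_det_eq_zero κ w v hv _ _ hdis, zero_mul]

end Pool.Agent.Lib.Caf1090
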