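import Pool.Agent.Lib.Caf1090.Defs

open scoped TensorProduct

namespace Pool.Agent.Lib.Caf1090

universe u

variable {F : Type u} [Field F] {B : Type u} [NonUnitalNonAssocRing B] [Module F B]
  [IsScalarTower F B B] [SMulCommClass F B B]

lemma env_mul_mem {𝒷 : ZMod 2 → Submodule F B} (h : IsSuperalgebra 𝒷) {x y : Gr F ⊗[F] B}
    (hx : x ∈ env 𝒷) (hy : y ∈ env 𝒷) : x * y ∈ env 𝒷 := by
  unfold env at hx hy
  induction hx, hy using Submodule.span_induction₂ with
  | mem_mem x y hx hy =>
    obtain ⟨i, g, hg, b, hb, rfl⟩ := hx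
    obtain ⟨j, g', hg', b', hb', rfl⟩ := hy
    rw [Algebra.TensorProduct.tmul_mul_tmul]
    exact Submodule.subset_span ⟨i + j, g * g', grPart_mul hg hg', b * b', h.mul_mem hb hb', rfl⟩
  | zero_left y hy => rw [zero_mul]; exact Submodule.zero_mem _
  | zero_right x hx => rw [mul_zero]; exact Submodule.zero_mem _
  | add_left x y z _ _ _ h1 h2 => rw [add_mul]; exact Submodule.add_mem _ h1 h2
  | add_right x y z _ _ _ h1 h2 => rw [mul_add]; exact Submodule.add_mem _ h1 h2
  | smul_left c x y _ _ h1 => rw [smul_mul_assoc]; exact Submodule.smul_mem _ _ h1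
  | smul_right c x y _ _ h1 => rw [mul_smul_comm]; exact Submodule.smul_mem _ _ h1

/-- The Grassmann envelope `G(B) = G₀ ⊗ B₀ + G₁ ⊗ B₁` of the superalgebra `B`, as a subalgebra of
`G ⊗ B`. -/
noncomputable def envelope {𝒷 : ZMod 2 → Submodule F B} (h : IsSuperalgebra 𝒷) :
    NonUnitalSubalgebra F (Gr F ⊗[F] B) :=
  { env 𝒷 with mul_mem' := env_mul_mem h }

lemma envelopeSatisfies_iff {𝒷 : ZMod 2 → Submodule F B} (h : IsSuperalgebra 𝒷) (f : NAPoly F) :
    EnvelopeSatisfies 𝒷 f ↔ Satisfies F (envelope h) f := by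
  have key : ∀ a : ℕ → envelope h,
      NonUnitalSubalgebraClass.subtype (envelope h) (FreeNonUnitalNonAssocAlgebra.lift F a f) =
      FreeNonUnitalNonAssocAlgebra.lift F (fun n => (a n : Gr F ⊗[F] B)) f := by
    intro a
    have h1 : (NonUnitalSubalgebraClass.subtype (envelope h)).comp
        (FreeNonUnitalNonAssocAlgebra.lift F a) =
        FreeNonUnitalNonAssocAlgebra.lift F (fun n => (a n : Gr F ⊗[F] B)) := by
      apply FreeNonUnitalNonAssocAlgebra.hom_ext
      intro n
      rw [FreeNonUnitalNonAssocAlgebra.lift_of_apply, NonUnitalAlgHom.comp_apply,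
        FreeNonUnitalNonAssocAlgebra.lift_of_apply]
      rfl
    exact DFunLike.congr_fun h1 f
  constructor
  · intro hf a
    have h2 := hf (fun n => (a n : Gr F ⊗[F] B)) (fun n => (a n).2)
    rw [← key] at h2
    exact Subtype.ext h2
  · intro hf a ha
    have h2 := hf (fun n => ⟨a n, ha n⟩)
    rw [← key (fun n => ⟨a n, ha n⟩), h2, map_zero]

end Pool.Agent.Lib.Caf1090
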