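import Pool.Agent.Lib.Caf1090.Env

open scoped TensorProduct

namespace Pool.Agent.Lib.Caf1090

universe u

variable {F : Type u} [Field F]

section EA

lemma ea_comm {i j : ZMod 2} {x y : ExteriorAlgebra F (ℕ →₀ F)}
    (hx : x ∈ CliffordAlgebra.evenOdd (0 : QuadraticForm F (ℕ →₀ F)) i)
    (hy : y ∈ CliffordAlgebra.evenOdd (0 : QuadraticForm F (ℕ →₀ F)) j) :
    x * y = (-1 : ℤˣ) ^ (j * i) • (y * x) := by
  have h := CliffordAlgebra.map_mul_map_of_isOrtho_of_mem_evenOdd
    (Q₁ := (0 : QuadraticForm F (ℕ →₀ F))) (Q₂ := (0 : QuadraticForm F (ℕ →₀ F)))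
    (Qₙ := (0 : QuadraticForm F (ℕ →₀ F)))
    (QuadraticMap.Isometry.id _) (QuadraticMap.Isometry.id _) (by
      intro x y
      simp [QuadraticMap.IsOrtho]) x y hx hy
  simpa using h

/-- A product of distinct generators and ones is not zero. -/
lemma ea_prod_ne_zero (ε : ℕ → ZMod 2) (l : List ℕ) (hl : l.Nodup) :
    (l.map (fun n => if ε n = 0 then (1 : ExteriorAlgebra F (ℕ →₀ F)) else
      ExteriorAlgebra.ι F (Finsupp.single n 1))).prod ≠ 0 := by
  have key : ∀ (l : List ℕ) (n : ℕ), n ∉ l →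
      CliffordAlgebra.contractLeft (Q := (0 : QuadraticForm F (ℕ →₀ F)))
        (Finsupp.lapply n : (ℕ →₀ F) →ₗ[F] F)
        ((l.map (fun n => if ε n = 0 then (1 : ExteriorAlgebra F (ℕ →₀ F)) else
          ExteriorAlgebra.ι F (Finsupp.single n 1))).prod) = 0 := by
    intro l n hn
    induction l with
    | nil => simp [CliffordAlgebra.contractLeft_one]
    | cons m l ih =>
      rw [List.mem_cons, not_or] at hn
      rw [List.map_cons, List.prod_cons]
      split_ifs with h
      · rw [one_mul]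
        exact ih hn.2
      · rw [ExteriorAlgebra.ι, CliffordAlgebra.contractLeft_ι_mul]
        have h1 := ih hn.2
        rw [ExteriorAlgebra.ι] at h1
        rw [h1, mul_zero, sub_zero, Finsupp.lapply_apply, Finsupp.single_apply,
          if_neg (Ne.symm hn.1), zero_smul]
  induction l with
  | nil => simp
  | cons m l ih =>
    rw [List.nodup_cons] at hl
    rw [List.map_cons, List.prod_cons]
    split_ifs with h
    · rw [one_mul]
      exact ih hl.2
    · intro h0
      apply ih hl.2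
      have h1 := congrArg (CliffordAlgebra.contractLeft (Q := (0 : QuadraticForm F (ℕ →₀ F)))
        (Finsupp.lapply m : (ℕ →₀ F) →ₗ[F] F)) h0
      rw [ExteriorAlgebra.ι, CliffordAlgebra.contractLeft_ι_mul, map_zero] at h1
      have h2 := key l m hl.1
      rw [ExteriorAlgebra.ι] at h2
      rw [h2, mul_zero, sub_zero, Finsupp.lapply_apply, Finsupp.single_apply,
          if_pos rfl, one_smul] at h1
      exact h1

end EA

lemma one_mem_grPart : (1 : Gr F) ∈ grPart F 0 :=
  (Submodule.one_le.1 (CliffordAlgebra.one_le_evenOdd_zero (0 : QuadraticForm F (ℕ →₀ F))))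

/-- The generators. -/
noncomputable def gen (n : ℕ) : Gr F := ExteriorAlgebra.ι F (Finsupp.single n 1)

lemma gen_mem_grPart (n : ℕ) : gen n ∈ grPart F 1 :=
  CliffordAlgebra.ι_mem_evenOdd_one (0 : QuadraticForm F (ℕ →₀ F)) _

lemma gr_comm {i j : ZMod 2} {x y : Gr F} (hx : x ∈ grPart F i) (hy : y ∈ grPart F j) :
    x * y = (-1 : ℤˣ) ^ (j * i) • (y * x) := ea_comm hx hy

lemma even_comm {j : ZMod 2} {x y : Gr F} (hx : x ∈ grPart F 0) (hy : y ∈ grPart F j) :
    x * y = y * x := by
  rw [gr_comm hx hy, mul_zero, uzpow_zero, one_smul]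

lemma odd_comm {x y : Gr F} (hx : x ∈ grPart F 1) (hy : y ∈ grPart F 1) :
    x * y = -(y * x) := by
  rw [gr_comm hx hy, mul_one, uzpow_one, Units.neg_smul, one_smul]

lemma odd_sq [CharZero F] {x : Gr F} (hx : x ∈ grPart F 1) : x * x = 0 := by
  have h := odd_comm hx hx
  have h2 : (2 : F) • (x * x) = 0 := by
    rw [two_smul]
    nth_rewrite 2 [h]
    exact add_neg_cancel _
  exact (smul_eq_zero.1 h2).resolve_left two_ne_zero

/-- `x g x = 0` for `x` odd and `g` homogeneous. -/
lemma odd_mul_mul [CharZero F] {i : ZMod 2} {x g : Gr F} (hx : x ∈ grPart F 1)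
    (hg : g ∈ grPart F i) : x * g * x = 0 := by
  rw [gr_comm hx hg, smul_mul_assoc, mul_assoc, odd_sq hx, mul_zero, smul_zero]

/-- A product of distinct generators and ones is not zero. -/
lemma prod_ne_zero (ε : ℕ → ZMod 2) (l : List ℕ) (hl : l.Nodup) :
    (l.map (fun n => if ε n = 0 then (1 : Gr F) else gen n)).prod ≠ 0 :=
  ea_prod_ne_zero ε l hl

end Pool.Agent.Lib.Caf1090
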