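import Pool.Agent.Lib.Caf1090.Weyl

namespace Pool.Agent.Lib.Caf1090

universe u

section NonVanish

variable {F : Type u} [Field F] {n : ℕ}

/-- The elements of the module. -/
noncomputable def inM (p : MvPolynomial (Fin n) F) : WW F n := (p, 0)

/-- The central elements. -/
noncomputable def inZ (c : F) : WW F n := (0, (0, c))

lemma inM_mul_inZ (p : MvPolynomial (Fin n) F) (c : F) : inM p * inZ c = inM (c • p) := by
  refine Prod.ext ?_ (Prod.ext ?_ ?_)
  · show rho ((0, c) : HH F n) p - rho 0 0 = c • p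
    rw [rho_central, rho_zero_left, sub_zero]
  · rfl
  · exact coc_central_left 0 _

lemma chain_inZ (p : MvPolynomial (Fin n) F) (l : List F) :
    chain (inM p) (l.map inZ) = inM (l.prod • p) := by
  unfold chain
  induction l generalizing p with
  | nil => simp
  | cons c l ih =>
    rw [List.map_cons, List.foldl_cons, inM_mul_inZ, ih, List.prod_cons, smul_smul, mul_comm]

/-- The generators `∂ᵢ`. -/
noncomputable def xW (i : Fin n) : WW F n := (0, ((Pi.single i 1, 0), 0))

/-- The generators `Xᵢ`. -/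
noncomputable def yW (i : Fin n) : WW F n := (0, ((0, Pi.single i 1), 0))

lemma xW_mul_yW (i j : Fin n) :
    (xW i * yW j : WW F n) = inZ ((-1 : Matrix (Fin n) (Fin n) F) i j) := by
  refine Prod.ext ?_ (Prod.ext ?_ ?_)
  · show rho _ 0 - rho _ 0 = 0
    rw [rho_zero_right, rho_zero_right, sub_zero]
  · rfl
  · show coc (((Pi.single i 1, 0), 0) : HH F n) ((0, Pi.single j 1), 0) =
      (-1 : Matrix (Fin n) (Fin n) F) i j
    simp only [coc, Pi.zero_apply, zero_mul, Finset.sum_const_zero, zero_sub, Matrix.neg_apply,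
      Matrix.one_apply, neg_inj]
    rw [Finset.sum_eq_single i]
    · rw [Pi.single_eq_same, one_mul, Pi.single_apply]
    · intro k _ hk
      rw [Pi.single_eq_of_ne hk, zero_mul]
    · intro h
      exact absurd (Finset.mem_univ i) h

lemma dstep_WW (p : MvPolynomial (Fin n) F) :
    dstep (fun i => xW i) (fun i => yW i) (inM p) = inM ((-1 : F) ^ n • p) := by
  have h : ((-1 : Matrix (Fin n) (Fin n) F)).det = (-1) ^ n := by
    rw [Matrix.det_neg, Matrix.det_one, Fintype.card_fin, mul_one]
  rw [← h, Matrix.det_apply, Finset.sum_smul]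
  unfold dstep
  have h2 : ∀ (s : Finset (Equiv.Perm (Fin n))) (f : Equiv.Perm (Fin n) →
      MvPolynomial (Fin n) F), inM (∑ σ ∈ s, f σ) = ∑ σ ∈ s, inM (f σ) := by
    intro s f
    let φ : MvPolynomial (Fin n) F →+ WW F n :=
      { toFun := inM
        map_zero' := rfl
        map_add' := fun a b => by
          refine Prod.ext rfl ?_
          exact (add_zero (0 : HH F n)).symm }
    exact map_sum φ f s
  rw [h2]
  apply Finset.sum_congr rfl
  intro σ _
  have h3 : (List.ofFn fun i => (xW (σ i) * yW i : WW F n)) =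
      (List.ofFn fun i => (-1 : Matrix (Fin n) (Fin n) F) (σ i) i).map inZ := by
    rw [List.map_ofFn]
    congr 1
    ext1 i
    exact xW_mul_yW _ _
  rw [h3, chain_inZ, List.prod_ofFn]
  rcases Int.units_eq_one_or (Equiv.Perm.sign σ) with h6 | h6
  · rw [h6, one_smul, one_smul]
  · rw [h6, Units.neg_smul, one_smul, Units.neg_smul, one_smul, neg_smul]
    refine Prod.ext rfl ?_
    exact neg_zero

theorem fpoly_WW (m : ℕ) : ¬ Satisfies F (WW F n) (fpoly F n m) := by
  intro h
  let v : ℕ → WW F n := fun t =>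
    if t = 0 then inM 1 else if t < 3 then inZ 1 else
      if h : t - 3 < n then xW ⟨t - 3, h⟩ else
        if h : t - 3 - n < n then yW ⟨t - 3 - n, h⟩ else 0
  have h1 := h v
  unfold fpoly at h1
  rw [map_dstep_iter] at h1
  simp only [map_mul, var, FreeNonUnitalNonAssocAlgebra.lift_of_apply] at h1
  have hx : ∀ i : Fin n, v (3 + i) = xW i := by
    intro i
    have h3 : 3 + (i : ℕ) - 3 = i := by omega
    have h2 : (3 + (i : ℕ)) - 3 < n := by rw [h3]; exact i.2
    simp only [v]
    rw [if_neg (by omega), if_neg (by omega), dif_pos h2]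
    congr 1
    exact Fin.ext h3
  have hy : ∀ i : Fin n, v (3 + n + i) = yW i := by
    intro i
    have h3 : 3 + n + (i : ℕ) - 3 - n = i := by omega
    have h2 : 3 + n + (i : ℕ) - 3 - n < n := by rw [h3]; exact i.2
    simp only [v]
    rw [if_neg (by omega), if_neg (by omega), dif_neg (by omega), dif_pos h2]
    congr 1
    exact Fin.ext h3
  have h0 : v 0 * v 1 * v 2 = inM 1 := by
    show inM 1 * inZ 1 * inZ 1 = inM 1
    rw [inM_mul_inZ, inM_mul_inZ, one_smul, one_smul]
  simp only [hx, hy, h0] at h1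
  have h4 : ∀ (m : ℕ) (p : MvPolynomial (Fin n) F),
      (dstep (fun i => xW i) (fun i => yW i))^[m] (inM p) = inM (((-1 : F) ^ n) ^ m • p) := by
    intro m
    induction m with
    | zero => intro p; simp
    | succ m ih =>
      intro p
      rw [Function.iterate_succ_apply, dstep_WW, ih, smul_smul, pow_succ]
  rw [h4] at h1
  have h5 : ((-1 : F) ^ n) ^ m • (1 : MvPolynomial (Fin n) F) = 0 := congrArg Prod.fst h1
  rw [smul_eq_zero] at h5
  rcases h5 with h5 | h5
  · exact (pow_ne_zero _ (pow_ne_zero _ (neg_ne_zero.2 one_ne_zero))) h5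
  · exact one_ne_zero h5

end NonVanish

section Main

variable (F : Type u) [Field F]

/-- Lie algebras are Malcev algebras. -/
theorem malcev_of_lie : ∀ f ∈ malcevT F, IdentityOf F (lieT F) f := by
  intro f hf A _ _ _ _ hA v
  have hJ : ∀ x y z : A, jac x y z = 0 := by
    intro x y z
    have h1 := hA (jac (var F 0) (var F 1) (var F 2)) (by simp [lieT])
      (fun n => match n with | 0 => x | 1 => y | _ => z)
    simpa only [jac, var, map_add, map_sub, map_mul,
      FreeNonUnitalNonAssocAlgebra.lift_of_apply] using h1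
  simp only [malcevT, Set.mem_insert_iff, Set.mem_singleton_iff] at hf
  rcases hf with rfl | rfl | rfl
  · exact hA _ (by simp [lieT]) v
  · have h1 : FreeNonUnitalNonAssocAlgebra.lift F v
        (jac (var F 0) (var F 1) (var F 2) * var F 0 -
          jac (var F 0) (var F 1) (var F 0 * var F 2)) =
        jac (v 0) (v 1) (v 2) * v 0 - jac (v 0) (v 1) (v 0 * v 2) := by
      simp only [jac, var, map_add, map_sub, map_mul,
        FreeNonUnitalNonAssocAlgebra.lift_of_apply]
    rw [h1, hJ, hJ, zero_mul, sub_zero]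
  · exact hA _ (by simp [lieT]) v

theorem solvable_three (T : Set (NAPoly F)) (h₁ : malcevT F ⊆ T) : IdentityOf F T (solv F 3 0) := by
  intro A _ _ _ _ hA v
  have h1 := hA (cubeSq F) (h₁ (by simp [malcevT]))
    (fun n => match n with
      | 0 => v 0 | 1 => v 1 | 2 => v 2 * v 3 | 3 => v 4 | 4 => v 5 | _ => v 6 * v 7)
  simp only [cubeSq, var, map_mul, FreeNonUnitalNonAssocAlgebra.lift_of_apply] at h1
  simp only [solv, var, map_mul, FreeNonUnitalNonAssocAlgebra.lift_of_apply]
  exact h1

theorem infinite_superrank [CharZero F] (T : Set (NAPoly F)) (h₁ : malcevT F ⊆ T)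
    (h₂ : ∀ f ∈ T, IdentityOf F (lieT F) f) (r s : ℕ) : ¬ IsGeneratedBySuper F T r s := by
  rintro ⟨B, _, _, _, _, 𝒷, e, o, h, ⟨he, ho, hgen⟩, hid⟩
  simp only [envelopeSatisfies_iff h] at hid
  have hT : ∀ g ∈ malcevT F, Satisfies F (envelope h) g := by
    intro g hg
    refine (hid g).2 ?_
    intro A _ _ _ _ hA
    exact hA g (h₁ hg)
  have h3 := fpoly_vanish h hT (r := r) (s := s) (q := 1) (m := (r + 1) * s + 1) e o he ho hgen
    (by omega)
  exact fpoly_WW _ ((hid _).1 h3 (WW F (r + 1)) (fun g hg => h₂ g hg (WW F (r + 1)) WW_lie))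

end Main

end Pool.Agent.Lib.Caf1090
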