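import Pool.Agent.Lib.Caf1090.Defs

namespace Pool.Agent.Lib.Caf1090

universe u

section

variable {L : Type u} [NonUnitalNonAssocRing L]

lemma ml (hM : ∀ x y z : L, jac x y z * x = jac x y (x * z)) (x w y z : L) :
    jac x y z * w + jac w y z * x = jac x y (w * z) + jac w y (x * z) := by
  have h := hM (x + w) y z
  have h1 := hM x y z
  have h2 := hM w y z
  simp only [jac, add_mul, mul_add] at h h1 h2 ⊢
  linear_combination (norm := abel) h - h1 - h2

/-- In a Malcev algebra `L`, right multiplications by products commute on `N`, if `N` is a subset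
with zero multiplication containing all products of three elements. -/
lemma malcev_comm (h2 : ∀ x : L, x + x = 0 → x = 0) (hac : ∀ x y : L, x * y = -(y * x))
    (hM : ∀ x y z : L, jac x y z * x = jac x y (x * z)) (N : L → Prop)
    (hN1 : ∀ m x, N m → N (m * x)) (hN2 : ∀ m m', N m → N m' → m * m' = 0)
    (hN3 : ∀ x y z, N (x * y * z)) (hNneg : ∀ m, N m → N (-m)) (m : L) (hm : N m)
    (a b w y : L) : m * (a * b) * (w * y) = m * (w * y) * (a * b) := by
  set c := a * b with hc
  have hcr : ∀ z, N (c * z) := fun z => hN3 a b z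
  have hcl : ∀ z, N (z * c) := fun z => by rw [hac]; exact hNneg _ (hcr z)
  have hNl : ∀ m x, N m → N (x * m) := fun m x h => by rw [hac]; exact hNneg _ (hN1 _ _ h)
  -- (a)
  have ea : ∀ z w : L, m * c * z * w = m * c * (w * z) - m * (w * z) * c + m * z * w * c := by
    intro z w
    have h := ml hM m w c z
    simp only [jac, add_mul] at h
    rw [hN2 (c * z) m (hcr z) hm, hac z m, hN2 (w * c * z) m (hN1 _ _ (hcl w)) hm,
      hN2 (c * z * w) m (hN1 _ _ (hcr z)) hm, hN2 (z * w * c) m (hN3 _ _ _) hm,
      hN2 (c * (w * z)) m (hcr _) hm, hac (w * z) m,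
      hN2 (w * c) (m * z) (hcl w) (hN1 _ _ hm), hac c (m * z)] at h
    simp only [neg_mul, zero_mul] at h
    linear_combination (norm := abel) h
  have eb : ∀ y w : L, m * y * c * w = m * c * w * y - m * c * (w * y) := by
    intro y w
    have h := ml hM m w y c
    simp only [jac, add_mul] at h
    rw [hN2 (y * c) m (hcl y) hm, hac c m, hN2 (w * y * c) m (hcl _) hm,
      hN2 (y * c * w) m (hN1 _ _ (hcl y)) hm, hN2 (c * w * y) m (hN1 _ _ (hcr w)) hm,
      hN2 (m * y) (w * c) (hN1 _ _ hm) (hcl w), hN2 (y * (w * c)) m (hNl _ _ (hcl w)) hm,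
      hN2 (w * c) m (hcl w) hm, hac (w * y) (m * c), hac y (m * c)] at h
    simp only [neg_mul, zero_mul] at h
    linear_combination (norm := abel) h
  have ec : ∀ y z : L, m * z * c * y = m * y * z * c - m * (y * z) * c := by
    intro y z
    have h := ml hM m c y z
    simp only [jac, add_mul] at h
    rw [hac (y * z) m, hac z m, hN2 (c * y * z) m (hN1 _ _ (hcr y)) hm,
      hN2 (y * z * c) m (hN3 _ _ _) hm, hN2 (z * c * y) m (hN1 _ _ (hcl z)) hm,
      hN2 (m * y) (c * z) (hN1 _ _ hm) (hcr z), hN2 (y * (c * z)) m (hNl _ _ (hcr z)) hm,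
      hN2 (c * z) m (hcr z) hm, hN2 (c * y) (m * z) (hcr y) (hN1 _ _ hm), hac y (m * z)] at h
    simp only [neg_mul, zero_mul] at h
    linear_combination (norm := abel) -h
  have hd : ∀ w y : L, m * c * (w * y) - m * (w * y) * c = m * c * w * y - m * w * y * c := by
    intro w y
    linear_combination (norm := abel) eb y w - ec w y
  have he := ea y w
  have hd' := hd y w
  have h3 : y * w = -(w * y) := hac y w
  rw [h3] at hd'
  have h4 : (m * c * (w * y) - m * (w * y) * c) + (m * c * (w * y) - m * (w * y) * c) = 0 := by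
    simp only [mul_neg, neg_mul] at hd'
    linear_combination (norm := abel) -he - hd'
  exact sub_eq_zero.1 (h2 _ h4)

end

end Pool.Agent.Lib.Caf1090
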