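import Pool.Agent.Lib.Caf1090.Ring

open scoped TensorProduct

namespace Pool.Agent.Lib.Caf1090

set_option linter.unusedSectionVars false

universe u

variable {F : Type u} [Field F] [CharZero F] {B : Type u} [NonUnitalNonAssocRing B] [Module F B]
  [IsScalarTower F B B] [SMulCommClass F B B] {𝒷 : ZMod 2 → Submodule F B}

/-! ### Products in the envelope -/

lemma E3_mul {z x : Gr F ⊗[F] B} (h : IsSuperalgebra 𝒷) (hz : z ∈ env (C3 𝒷)) (hx : x ∈ env 𝒷) :
    z * x ∈ env (C3 𝒷) :=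
  env_mul (𝒞 := C3 𝒷) (𝒟 := 𝒷) (ℰ := C3 𝒷)
    (fun _ _ _ b ha hb => ⟨h.mul_mem ha.1 hb, mul_mem_B3 (B3_le_B2 ha.2) b⟩) hz hx

lemma E2_mul {z x : Gr F ⊗[F] B} (h : IsSuperalgebra 𝒷) (hz : z ∈ env (C2 𝒷)) (hx : x ∈ env 𝒷) :
    z * x ∈ env (C3 𝒷) :=
  env_mul (𝒞 := C2 𝒷) (𝒟 := 𝒷) (ℰ := C3 𝒷)
    (fun _ _ _ b ha hb => ⟨h.mul_mem ha.1 hb, mul_mem_B3 ha.2 b⟩) hz hx

lemma E_mul {z x : Gr F ⊗[F] B} (h : IsSuperalgebra 𝒷) (hz : z ∈ env 𝒷) (hx : x ∈ env 𝒷) :
    z * x ∈ env (C2 𝒷) :=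
  env_mul (𝒞 := 𝒷) (𝒟 := 𝒷) (ℰ := C2 𝒷)
    (fun _ _ a b ha hb => ⟨h.mul_mem ha hb, mul_mem_B2 a b⟩) hz hx

lemma E3_mul_E3 {z x : Gr F ⊗[F] B} (h : IsSuperalgebra 𝒷)
    (hE : Satisfies F (envelope h) (cubeSq F)) (hz : z ∈ env (C3 𝒷)) (hx : x ∈ env (C3 𝒷)) :
    z * x = 0 :=
  env_mul_zero (𝒞 := C3 𝒷) (𝒟 := C3 𝒷) (fun _ _ _ _ ha hb => B3_mul_B3 h hE ha.2 hb.2) hz hx

lemma E2_le : env (C2 𝒷) ≤ env 𝒷 := env_mono (fun _ => inf_le_left)

lemma E3_le : env (C3 𝒷) ≤ env 𝒷 := env_mono (fun _ => inf_le_left)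

variable (𝒷) in
/-- The envelope of `B³`, as a type. -/
def VV : Type u := env (C3 𝒷)

noncomputable instance : AddCommGroup (VV 𝒷) := inferInstanceAs (AddCommGroup (env (C3 𝒷)))
noncomputable instance : Module F (VV 𝒷) := inferInstanceAs (Module F (env (C3 𝒷)))

/-- The underlying element. -/
noncomputable def VV.val (z : VV 𝒷) : Gr F ⊗[F] B := Subtype.val (p := (· ∈ env (C3 𝒷))) z

lemma VV.mem (z : VV 𝒷) : z.val ∈ env (C3 𝒷) := z.2

/-- Constructor. -/
noncomputable def VV.mk (z : Gr F ⊗[F] B) (hz : z ∈ env (C3 𝒷)) : VV 𝒷 := ⟨z, hz⟩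

@[simp] lemma VV.val_mk (z : Gr F ⊗[F] B) (hz : z ∈ env (C3 𝒷)) : (VV.mk z hz).val = z := rfl

lemma VV.ext {x y : VV 𝒷} (h : x.val = y.val) : x = y := Subtype.ext h

@[simp] lemma VV.val_add (x y : VV 𝒷) : (x + y).val = x.val + y.val := rfl
@[simp] lemma VV.val_zero : (0 : VV 𝒷).val = 0 := rfl
@[simp] lemma VV.val_smul (c : F) (x : VV 𝒷) : (c • x).val = c • x.val := rfl

variable (𝒷) in
/-- The inclusion. -/
noncomputable def VV.valHom : VV 𝒷 →+ Gr F ⊗[F] B where
  toFun := VV.val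
  map_zero' := rfl
  map_add' _ _ := rfl

lemma VV.val_sum {ι : Type*} (s : Finset ι) (f : ι → VV 𝒷) :
    (∑ i ∈ s, f i).val = ∑ i ∈ s, (f i).val := map_sum (VV.valHom 𝒷) f s

/-- Right multiplication by an element of the envelope. -/
noncomputable def opE (h : IsSuperalgebra 𝒷) (x : envelope h) : Module.End F (VV 𝒷) where
  toFun z := VV.mk (z.val * (x : Gr F ⊗[F] B)) (E3_mul h z.mem x.2)
  map_add' y z := by
    apply VV.ext
    simp only [VV.val_mk, VV.val_add, add_mul]
  map_smul' c z := by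
    apply VV.ext
    simp only [VV.val_mk, VV.val_smul, smul_mul_assoc, RingHom.id_apply]

@[simp] lemma opE_apply (h : IsSuperalgebra 𝒷) (x : envelope h) (z : VV 𝒷) :
    (opE h x z).val = z.val * (x : Gr F ⊗[F] B) := rfl

variable (𝒷) in
/-- Multiplication by an even scalar. -/
noncomputable def opK (k : grPart F 0) : Module.End F (VV 𝒷) where
  toFun z := VV.mk ((k : Gr F) • z.val) (smul_env k.2 z.mem)
  map_add' x y := by
    apply VV.ext
    simp only [VV.val_mk, VV.val_add, smul_add]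
  map_smul' c x := by
    apply VV.ext
    simp only [VV.val_mk, VV.val_smul, RingHom.id_apply]
    rw [smul_comm]

@[simp] lemma opK_apply (k : grPart F 0) (z : VV 𝒷) :
    (opK 𝒷 k z).val = (k : Gr F) • z.val := rfl

lemma smul_mul_env (k : Gr F) (z x : Gr F ⊗[F] B) : (k • z) * x = k • (z * x) := by
  induction z with
  | zero => simp only [smul_zero, zero_mul]
  | add a b ha hb => simp only [smul_add, add_mul, ha, hb]
  | tmul g b =>
    induction x with
    | zero => simp only [mul_zero, smul_zero]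
    | add a b ha hb => simp only [smul_add, mul_add, ha, hb]
    | tmul g' b' =>
      rw [TensorProduct.smul_tmul', Algebra.TensorProduct.tmul_mul_tmul,
        Algebra.TensorProduct.tmul_mul_tmul, TensorProduct.smul_tmul', smul_eq_mul, smul_eq_mul,
        mul_assoc]

/-- `z (k⊗1)x = k (z x)` for even `k`. -/
lemma mul_smul_env {k : Gr F} (hk : k ∈ grPart F 0) {𝒞 : ZMod 2 → Submodule F B}
    {z : Gr F ⊗[F] B} (hz : z ∈ env 𝒞) (x : Gr F ⊗[F] B) : z * (k • x) = k • (z * x) := by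
  unfold env at hz
  induction hz using Submodule.span_induction with
  | mem z hz =>
    obtain ⟨i, g, hg, b, hb, rfl⟩ := hz
    induction x with
    | zero => simp only [mul_zero, smul_zero]
    | add a b ha hb => simp only [smul_add, mul_add, ha, hb]
    | tmul g' b' =>
      rw [TensorProduct.smul_tmul', Algebra.TensorProduct.tmul_mul_tmul,
        Algebra.TensorProduct.tmul_mul_tmul, TensorProduct.smul_tmul', smul_eq_mul, smul_eq_mul,
        ← mul_assoc, ← mul_assoc, even_comm hk hg]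
  | zero => simp only [smul_zero, zero_mul]
  | add a b _ _ ha hb => simp only [smul_add, add_mul, ha, hb]
  | smul c a _ ha => rw [smul_mul_assoc, ha, smul_mul_assoc, smul_comm]

/-- Odd elements with the same second factor give operators with zero product. -/
lemma odd_mul_zero {l : Gr F} (hl : l ∈ grPart F 1) (o : B) {x y z : Gr F ⊗[F] B}
    (hx : x ∈ env 𝒷) (hy : y ∈ env 𝒷) (hz : z ∈ env 𝒷) :
    z * ((l ⊗ₜ o) * x) * ((l ⊗ₜ o) * y) = 0 := by
  unfold env at hx hy hz
  induction hy using Submodule.span_induction with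
  | zero => simp only [mul_zero]
  | add a b _ _ ha hb => simp only [mul_add, ha, hb, add_zero]
  | smul c a _ ha => simp only [mul_smul_comm, ha, smul_zero]
  | mem y hy =>
    induction hz, hx using Submodule.span_induction₂ with
    | mem_mem z x hz hx =>
      obtain ⟨i, g, hg, b, hb, rfl⟩ := hy
      obtain ⟨i', g', hg', b', hb', rfl⟩ := hx
      obtain ⟨i'', g'', hg'', b'', hb'', rfl⟩ := hz
      simp only [Algebra.TensorProduct.tmul_mul_tmul]
      have h1 : g'' * (l * g') * (l * g) = g'' * (l * g' * l) * g := by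
        simp only [mul_assoc]
      rw [h1, odd_mul_mul hl hg', mul_zero, zero_mul, TensorProduct.zero_tmul]
    | zero_left x hx => simp only [zero_mul]
    | zero_right z hz => simp only [mul_zero, zero_mul]
    | add_left a b z _ _ _ h1 h2 => simp only [add_mul, h1, h2, add_zero]
    | add_right a b z _ _ _ h1 h2 => simp only [add_mul, mul_add, h1, h2, add_zero]
    | smul_left c a z _ _ h1 => simp only [smul_mul_assoc, h1, smul_zero]
    | smul_right c a z _ _ h1 => simp only [smul_mul_assoc, mul_smul_comm, h1, smul_zero]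

end Pool.Agent.Lib.Caf1090
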