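import Pool.Agent.Lib.Caf1090.Super
import Pool.Agent.Lib.Caf1090.Malcev

open scoped TensorProduct

namespace Pool.Agent.Lib.Caf1090

set_option linter.unusedSectionVars false

universe u

variable {F : Type u} [Field F] {B : Type u} [NonUnitalNonAssocRing B] [Module F B]
  [IsScalarTower F B B] [SMulCommClass F B B] {𝒷 : ZMod 2 → Submodule F B}

lemma zmod_two (i : ZMod 2) : i = 0 ∨ i = 1 := by revert i; decide

lemma B3_mul_B3 (h : IsSuperalgebra 𝒷) (hE : Satisfies F (envelope h) (cubeSq F)) {x y : B}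
    (hx : x ∈ B3 F B) (hy : y ∈ B3 F B) : x * y = 0 := by
  rw [B3_eq h] at hx hy
  induction hx, hy using Submodule.span_induction₂ with
  | mem_mem x y hx hy =>
    obtain ⟨_, ⟨a0, ⟨i0, h0⟩, a1, ⟨i1, h1⟩, rfl⟩, a2, ⟨i2, h2⟩, rfl⟩ := hx
    obtain ⟨_, ⟨a3, ⟨i3, h3⟩, a4, ⟨i4, h4⟩, rfl⟩, a5, ⟨i5, h5⟩, rfl⟩ := hy
    exact cube_hom h hE
      (fun n => match n with | 0 => i0 | 1 => i1 | 2 => i2 | 3 => i3 | 4 => i4 | 5 => i5 | _ => 0)
      (fun n => match n with | 0 => a0 | 1 => a1 | 2 => a2 | 3 => a3 | 4 => a4 | 5 => a5 | _ => 0)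
      (fun n => match n with
        | 0 => h0 | 1 => h1 | 2 => h2 | 3 => h3 | 4 => h4 | 5 => h5
        | _ + 6 => Submodule.zero_mem _)
  | zero_left y hy => rw [zero_mul]
  | zero_right x hx => rw [mul_zero]
  | add_left x y z _ _ _ h1 h2 => rw [add_mul, h1, h2, add_zero]
  | add_right x y z _ _ _ h1 h2 => rw [mul_add, h1, h2, add_zero]
  | smul_left c x y _ _ h1 => rw [smul_mul_assoc, h1, smul_zero]
  | smul_right c x y _ _ h1 => rw [mul_smul_comm, h1, smul_zero]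

/-- The homogeneous parts of the span of the generators. -/
noncomputable def gensPart {r s : ℕ} (e : Fin r → B) (o : Fin s → B) (i : ZMod 2) :
    Submodule F B :=
  if i = 0 then Submodule.span F (Set.range e) else Submodule.span F (Set.range o)

/-- Every element is a linear combination of generators modulo `B²`, in a homogeneous way. -/
lemma gens_decomp (h : IsSuperalgebra 𝒷) {r s : ℕ} {e : Fin r → B} {o : Fin s → B}
    (he : ∀ a, e a ∈ 𝒷 0) (ho : ∀ b, o b ∈ 𝒷 1)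
    (hgen : NonUnitalAlgebra.adjoin F (Set.range e ∪ Set.range o) = ⊤) (i : ZMod 2) (b : B)
    (hb : b ∈ 𝒷 i) : ∃ t ∈ gensPart (F := F) e o i, ∃ c ∈ C2 𝒷 i, b = t + c := by
  have hle : ∀ i, gensPart (F := F) e o i ≤ 𝒷 i := by
    intro i
    have hi : i = 0 ∨ i = 1 := zmod_two i
    rcases hi with rfl | rfl
    · rw [gensPart, if_pos rfl, Submodule.span_le]
      rintro _ ⟨a, rfl⟩
      exact he a
    · rw [gensPart, if_neg (by decide), Submodule.span_le]
      rintro _ ⟨a, rfl⟩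
      exact ho a
  -- all elements are sums of such elements
  have key : ∀ b : B, ∃ t₀ ∈ gensPart (F := F) e o 0, ∃ c₀ ∈ C2 𝒷 0,
      ∃ t₁ ∈ gensPart (F := F) e o 1, ∃ c₁ ∈ C2 𝒷 1, b = (t₀ + c₀) + (t₁ + c₁) := by
    intro b
    have hb : b ∈ NonUnitalAlgebra.adjoin F (Set.range e ∪ Set.range o) := by
      rw [hgen]; exact NonUnitalAlgebra.mem_top
    induction hb using NonUnitalAlgebra.adjoin_induction with
    | mem x hx =>
      rcases hx with ⟨a, rfl⟩ | ⟨a, rfl⟩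
      · refine ⟨e a, ?_, 0, Submodule.zero_mem _, 0, Submodule.zero_mem _, 0,
          Submodule.zero_mem _, by simp⟩
        rw [gensPart, if_pos rfl]
        exact Submodule.subset_span ⟨a, rfl⟩
      · refine ⟨0, Submodule.zero_mem _, 0, Submodule.zero_mem _, o a, ?_, 0,
          Submodule.zero_mem _, by simp⟩
        rw [gensPart, if_neg (by decide)]
        exact Submodule.subset_span ⟨a, rfl⟩
    | add x y _ _ hx hy =>
      obtain ⟨t₀, h1, c₀, h2, t₁, h3, c₁, h4, rfl⟩ := hx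
      obtain ⟨t₀', h1', c₀', h2', t₁', h3', c₁', h4', rfl⟩ := hy
      exact ⟨t₀ + t₀', Submodule.add_mem _ h1 h1', c₀ + c₀', Submodule.add_mem _ h2 h2',
        t₁ + t₁', Submodule.add_mem _ h3 h3', c₁ + c₁', Submodule.add_mem _ h4 h4', by abel⟩
    | zero =>
      exact ⟨0, Submodule.zero_mem _, 0, Submodule.zero_mem _, 0, Submodule.zero_mem _, 0,
          Submodule.zero_mem _, by simp⟩
    | smul c x _ hx =>
      obtain ⟨t₀, h1, c₀, h2, t₁, h3, c₁, h4, rfl⟩ := hx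
      exact ⟨c • t₀, Submodule.smul_mem _ _ h1, c • c₀, Submodule.smul_mem _ _ h2,
        c • t₁, Submodule.smul_mem _ _ h3, c • c₁, Submodule.smul_mem _ _ h4, by
          simp only [smul_add]⟩
    | mul x y _ _ hx hy =>
      obtain ⟨t₀, h1, c₀, h2, t₁, h3, c₁, h4, rfl⟩ := hx
      obtain ⟨t₀', h1', c₀', h2', t₁', h3', c₁', h4', rfl⟩ := hy
      have hx0 : t₀ + c₀ ∈ 𝒷 0 := Submodule.add_mem _ (hle 0 h1) h2.1
      have hx1 : t₁ + c₁ ∈ 𝒷 1 := Submodule.add_mem _ (hle 1 h3) h4.1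
      have hy0 : t₀' + c₀' ∈ 𝒷 0 := Submodule.add_mem _ (hle 0 h1') h2'.1
      have hy1 : t₁' + c₁' ∈ 𝒷 1 := Submodule.add_mem _ (hle 1 h3') h4'.1
      set x₀ := t₀ + c₀
      set x₁ := t₁ + c₁
      set y₀ := t₀' + c₀'
      set y₁ := t₁' + c₁'
      refine ⟨0, Submodule.zero_mem _, x₀ * y₀ + x₁ * y₁,
        ⟨Submodule.add_mem _ (h.mul_mem hx0 hy0) (h.mul_mem hx1 hy1),
          Submodule.add_mem _ (mul_mem_B2 _ _) (mul_mem_B2 _ _)⟩,
        0, Submodule.zero_mem _, x₀ * y₁ + x₁ * y₀,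
        ⟨Submodule.add_mem _ (by simpa using h.mul_mem hx0 hy1)
          (by simpa using h.mul_mem hx1 hy0),
          Submodule.add_mem _ (mul_mem_B2 _ _) (mul_mem_B2 _ _)⟩, ?_⟩
      simp only [add_mul x₀, mul_add x₀, mul_add x₁]
      abel
  obtain ⟨t₀, h1, c₀, h2, t₁, h3, c₁, h4, hsum⟩ := key b
  have h5 : t₀ + c₀ ∈ 𝒷 0 := Submodule.add_mem _ (hle 0 h1) h2.1
  have h6 : t₁ + c₁ ∈ 𝒷 1 := Submodule.add_mem _ (hle 1 h3) h4.1
  have hi : i = 0 ∨ i = 1 := zmod_two i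
  rcases hi with rfl | rfl
  · refine ⟨t₀, h1, c₀, h2, ?_⟩
    have h7 : t₁ + c₁ = 0 := by
      apply (Submodule.disjoint_def.1 h.isCompl.disjoint) _ _ h6
      have : t₁ + c₁ = b - (t₀ + c₀) := by rw [hsum]; abel
      rw [this]
      exact Submodule.sub_mem _ hb h5
    rw [hsum, h7, add_zero]
  · refine ⟨t₁, h3, c₁, h4, ?_⟩
    have h7 : t₀ + c₀ = 0 := by
      apply (Submodule.disjoint_def.1 h.isCompl.disjoint) _ h5
      have : t₀ + c₀ = b - (t₁ + c₁) := by rw [hsum]; abel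
      rw [this]
      exact Submodule.sub_mem _ hb h6
    rw [hsum, h7, zero_add]

/-- Decomposition of the elements of the Grassmann envelope. -/
lemma env_decomp (h : IsSuperalgebra 𝒷) {r s : ℕ} {e : Fin r → B} {o : Fin s → B}
    (he : ∀ a, e a ∈ 𝒷 0) (ho : ∀ b, o b ∈ 𝒷 1)
    (hgen : NonUnitalAlgebra.adjoin F (Set.range e ∪ Set.range o) = ⊤)
    (x : Gr F ⊗[F] B) (hx : x ∈ env 𝒷) :
    ∃ (k : Fin r → Gr F) (l : Fin s → Gr F), (∀ a, k a ∈ grPart F 0) ∧ (∀ b, l b ∈ grPart F 1) ∧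
      ∃ c ∈ env (C2 𝒷), x = (∑ a, k a ⊗ₜ e a) + (∑ b, l b ⊗ₜ o b) + c := by
  unfold env at hx
  induction hx using Submodule.span_induction with
  | mem x hx =>
    obtain ⟨i, g, hg, b, hb, rfl⟩ := hx
    obtain ⟨t, ht, c, hc, rfl⟩ := gens_decomp h he ho hgen i b hb
    have hi : i = 0 ∨ i = 1 := zmod_two i
    rcases hi with rfl | rfl
    · rw [gensPart, if_pos rfl, Submodule.mem_span_range_iff_exists_fun] at ht
      obtain ⟨α, rfl⟩ := ht
      refine ⟨fun a => α a • g, 0, fun a => Submodule.smul_mem _ _ hg,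
        fun b => Submodule.zero_mem _, g ⊗ₜ c, tmul_mem_env hg hc, ?_⟩
      simp only [Pi.zero_apply, TensorProduct.zero_tmul, Finset.sum_const_zero, add_zero,
        TensorProduct.tmul_add, TensorProduct.tmul_sum, TensorProduct.smul_tmul]
    · rw [gensPart, if_neg (by decide), Submodule.mem_span_range_iff_exists_fun] at ht
      obtain ⟨α, rfl⟩ := ht
      refine ⟨0, fun a => α a • g, fun b => Submodule.zero_mem _,
        fun a => Submodule.smul_mem _ _ hg, g ⊗ₜ c, tmul_mem_env hg hc, ?_⟩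
      simp only [Pi.zero_apply, TensorProduct.zero_tmul, Finset.sum_const_zero, zero_add,
        TensorProduct.tmul_add, TensorProduct.tmul_sum, TensorProduct.smul_tmul]
  | zero =>
    exact ⟨0, 0, fun a => Submodule.zero_mem _, fun b => Submodule.zero_mem _, 0,
      Submodule.zero_mem _, by simp⟩
  | add x y _ _ h1 h2 =>
    obtain ⟨k, l, hk, hl, c, hc, rfl⟩ := h1
    obtain ⟨k', l', hk', hl', c', hc', rfl⟩ := h2
    refine ⟨k + k', l + l', fun a => Submodule.add_mem _ (hk a) (hk' a),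
      fun a => Submodule.add_mem _ (hl a) (hl' a), c + c', Submodule.add_mem _ hc hc', ?_⟩
    simp only [Pi.add_apply, TensorProduct.add_tmul, Finset.sum_add_distrib]
    abel
  | smul α x _ h1 =>
    obtain ⟨k, l, hk, hl, c, hc, rfl⟩ := h1
    refine ⟨α • k, α • l, fun a => Submodule.smul_mem _ _ (hk a),
      fun a => Submodule.smul_mem _ _ (hl a), α • c, Submodule.smul_mem _ _ hc, ?_⟩
    simp only [Pi.smul_apply, ← TensorProduct.smul_tmul', ← Finset.smul_sum, smul_add]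

end Pool.Agent.Lib.Caf1090
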