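import Pool.Agent.Lib.Caf1090.Grass
import Pool.Agent.Lib.Caf1090.Det

open scoped TensorProduct

namespace Pool.Agent.Lib.Caf1090

set_option linter.unusedSectionVars false

universe u

variable {F : Type u} [Field F] {B : Type u} [NonUnitalNonAssocRing B] [Module F B]
  [IsScalarTower F B B] [SMulCommClass F B B]

lemma tmul_mem_env {𝒞 : ZMod 2 → Submodule F B} {i : ZMod 2} {g : Gr F} {b : B}
    (hg : g ∈ grPart F i) (hb : b ∈ 𝒞 i) : g ⊗ₜ b ∈ env 𝒞 :=
  Submodule.subset_span ⟨i, g, hg, b, hb, rfl⟩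

lemma env_mul {𝒞 𝒟 ℰ : ZMod 2 → Submodule F B}
    (h : ∀ i j a b, a ∈ 𝒞 i → b ∈ 𝒟 j → a * b ∈ ℰ (i + j)) {x y : Gr F ⊗[F] B}
    (hx : x ∈ env 𝒞) (hy : y ∈ env 𝒟) : x * y ∈ env ℰ := by
  unfold env at hx hy
  induction hx, hy using Submodule.span_induction₂ with
  | mem_mem x y hx hy =>
    obtain ⟨i, g, hg, b, hb, rfl⟩ := hx
    obtain ⟨j, g', hg', b', hb', rfl⟩ := hy
    rw [Algebra.TensorProduct.tmul_mul_tmul]
    exact tmul_mem_env (grPart_mul hg hg') (h i j b b' hb hb')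
  | zero_left y hy => rw [zero_mul]; exact Submodule.zero_mem _
  | zero_right x hx => rw [mul_zero]; exact Submodule.zero_mem _
  | add_left x y z _ _ _ h1 h2 => rw [add_mul]; exact Submodule.add_mem _ h1 h2
  | add_right x y z _ _ _ h1 h2 => rw [mul_add]; exact Submodule.add_mem _ h1 h2
  | smul_left c x y _ _ h1 => rw [smul_mul_assoc]; exact Submodule.smul_mem _ _ h1
  | smul_right c x y _ _ h1 => rw [mul_smul_comm]; exact Submodule.smul_mem _ _ h1

lemma env_mul_zero {𝒞 𝒟 : ZMod 2 → Submodule F B}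
    (h : ∀ i j a b, a ∈ 𝒞 i → b ∈ 𝒟 j → a * b = 0) {x y : Gr F ⊗[F] B}
    (hx : x ∈ env 𝒞) (hy : y ∈ env 𝒟) : x * y = 0 := by
  unfold env at hx hy
  induction hx, hy using Submodule.span_induction₂ with
  | mem_mem x y hx hy =>
    obtain ⟨i, g, hg, b, hb, rfl⟩ := hx
    obtain ⟨j, g', hg', b', hb', rfl⟩ := hy
    rw [Algebra.TensorProduct.tmul_mul_tmul, h i j b b' hb hb', TensorProduct.tmul_zero]
  | zero_left y hy => rw [zero_mul]
  | zero_right x hx => rw [mul_zero]
  | add_left x y z _ _ _ h1 h2 => rw [add_mul, h1, h2, add_zero]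
  | add_right x y z _ _ _ h1 h2 => rw [mul_add, h1, h2, add_zero]
  | smul_left c x y _ _ h1 => rw [smul_mul_assoc, h1, smul_zero]
  | smul_right c x y _ _ h1 => rw [mul_smul_comm, h1, smul_zero]

lemma env_mono {𝒞 𝒟 : ZMod 2 → Submodule F B} (h : ∀ i, 𝒞 i ≤ 𝒟 i) : env 𝒞 ≤ env 𝒟 := by
  unfold env
  rw [Submodule.span_le]
  rintro _ ⟨i, g, hg, b, hb, rfl⟩
  exact tmul_mem_env hg (h i hb)

lemma smul_env {𝒞 : ZMod 2 → Submodule F B} {k : Gr F} (hk : k ∈ grPart F 0)
    {x : Gr F ⊗[F] B} (hx : x ∈ env 𝒞) : k • x ∈ env 𝒞 := by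
  unfold env at hx
  induction hx using Submodule.span_induction with
  | mem x hx =>
    obtain ⟨i, g, hg, b, hb, rfl⟩ := hx
    rw [TensorProduct.smul_tmul', smul_eq_mul]
    have := grPart_mul hk hg
    rw [zero_add] at this
    exact tmul_mem_env this hb
  | zero => rw [smul_zero]; exact Submodule.zero_mem _
  | add x y _ _ h1 h2 => rw [smul_add]; exact Submodule.add_mem _ h1 h2
  | smul c x _ h1 => rw [smul_comm]; exact Submodule.smul_mem _ _ h1

variable (F B) in
/-- The span of all products. -/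
noncomputable def B2 : Submodule F B := Submodule.map₂ (LinearMap.mul F B) ⊤ ⊤

variable (F B) in
/-- The span of all products `ab·c`. -/
noncomputable def B3 : Submodule F B := Submodule.map₂ (LinearMap.mul F B) (B2 F B) ⊤

lemma mul_mem_B2 (a b : B) : a * b ∈ B2 F B :=
  Submodule.apply_mem_map₂ (LinearMap.mul F B) (Submodule.mem_top (x := a))
    (Submodule.mem_top (x := b))

lemma mul_mem_B3 {a : B} (ha : a ∈ B2 F B) (b : B) : a * b ∈ B3 F B :=
  Submodule.apply_mem_map₂ (LinearMap.mul F B) ha (Submodule.mem_top (x := b))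

lemma B3_le_B2 : B3 F B ≤ B2 F B := by
  unfold B3
  rw [Submodule.map₂_le]
  intro a _ b _
  exact mul_mem_B2 a b

variable {𝒷 : ZMod 2 → Submodule F B}

variable (𝒷) in
/-- Homogeneous parts of `B²`. -/
noncomputable def C2 (i : ZMod 2) : Submodule F B := 𝒷 i ⊓ B2 F B

variable (𝒷) in
/-- Homogeneous parts of `B³`. -/
noncomputable def C3 (i : ZMod 2) : Submodule F B := 𝒷 i ⊓ B3 F B

lemma mem_envelope (h : IsSuperalgebra 𝒷) (x : Gr F ⊗[F] B) : x ∈ envelope h ↔ x ∈ env 𝒷 :=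
  Iff.rfl

/-- The homogeneous elements. -/
def hom (𝒷 : ZMod 2 → Submodule F B) : Set B := {b | ∃ i, b ∈ 𝒷 i}

lemma span_hom (h : IsSuperalgebra 𝒷) : Submodule.span F (hom 𝒷) = ⊤ := by
  rw [eq_top_iff, ← h.isCompl.sup_eq_top, sup_le_iff]
  constructor
  · intro x hx
    exact Submodule.subset_span ⟨0, hx⟩
  · intro x hx
    exact Submodule.subset_span ⟨1, hx⟩

lemma B3_eq (h : IsSuperalgebra 𝒷) : B3 F B = Submodule.span F
    (Set.image2 (fun a b => a * b) (Set.image2 (fun a b => a * b) (hom 𝒷) (hom 𝒷)) (hom 𝒷)) := by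
  rw [B3, B2, ← span_hom h, Submodule.map₂_span_span, Submodule.map₂_span_span]
  rfl

lemma tmul_eq_zero_right {g : Gr F} (hg : g ≠ 0) {b : B} (h : g ⊗ₜ[F] b = 0) : b = 0 := by
  have hinj : Function.Injective (LinearMap.toSpanSingleton F (Gr F) g) := by
    rw [injective_iff_map_eq_zero]
    intro c hc
    rw [LinearMap.toSpanSingleton_apply] at hc
    exact (smul_eq_zero.1 hc).resolve_right hg
  have h1 := Module.Flat.rTensor_preserves_injective_linearMap (M := B) _ hinj
  have h2 : (1 : F) ⊗ₜ[F] b = 0 := by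
    apply h1
    rw [LinearMap.rTensor_tmul, LinearMap.toSpanSingleton_apply, one_smul, h, map_zero]
  have h3 := congrArg (TensorProduct.lid F B) h2
  rwa [TensorProduct.lid_tmul, one_smul, map_zero] at h3

/-- Homogeneous elements satisfy the identity. -/
lemma cube_hom (h : IsSuperalgebra 𝒷) (hE : Satisfies F (envelope h) (cubeSq F))
    (i : ℕ → ZMod 2) (a : ℕ → B) (ha : ∀ n, a n ∈ 𝒷 (i n)) :
    (a 0 * a 1 * a 2) * (a 3 * a 4 * a 5) = 0 := by
  let g : ℕ → Gr F := fun n => if i n = 0 then 1 else gen n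
  have hg : ∀ n, g n ∈ grPart F (i n) := by
    intro n
    simp only [g]
    split_ifs with h0
    · rw [h0]; exact one_mem_grPart
    · have h1 : i n = 1 := by
        revert h0
        generalize i n = t
        revert t
        decide
      rw [h1]; exact gen_mem_grPart _
  have h1 := hE (fun n => ⟨g n ⊗ₜ a n, tmul_mem_env (hg n) (ha n)⟩)
  have h2 := congrArg Subtype.val h1
  simp only [cubeSq, var, map_mul, FreeNonUnitalNonAssocAlgebra.lift_of_apply,
    NonUnitalSubalgebra.coe_mul, Algebra.TensorProduct.tmul_mul_tmul] at h2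
  refine tmul_eq_zero_right ?_ h2
  have h3 := prod_ne_zero (F := F) i [0, 1, 2, 3, 4, 5] (by decide)
  simp only [List.map_cons, List.map_nil, List.prod_cons, List.prod_nil, mul_one] at h3
  simpa only [g, mul_assoc] using h3

end Pool.Agent.Lib.Caf1090
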