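import Pool.Agent.Lib.Caf1090.Oper

open scoped TensorProduct

namespace Pool.Agent.Lib.Caf1090

set_option linter.unusedSectionVars false
set_option linter.style.haveILetI false

universe u

section NAPoly

variable {A : Type u} [NonUnitalNonAssocRing A]

/-- `chain z [w₁, …, wₙ] = (⋯((z w₁) w₂)⋯) wₙ`. -/
def chain (z : A) (l : List A) : A := l.foldl (· * ·) z

/-- The determinant-like operator `z ↦ ∑ sgn σ (⋯(z (x_{σ1} y₁))⋯)(x_{σn} yₙ)`. -/
def dstep {n : ℕ} (x y : Fin n → A) (z : A) : A :=
  ∑ σ : Equiv.Perm (Fin n), Equiv.Perm.sign σ • chain z (List.ofFn fun i => x (σ i) * y i)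

variable (F : Type u) [Field F]

/-- The polynomial. -/
noncomputable def fpoly (n m : ℕ) : NAPoly F :=
  (dstep (fun i : Fin n => var F (3 + i)) (fun i : Fin n => var F (3 + n + i)))^[m]
    (var F 0 * var F 1 * var F 2)

variable {F} [Module F A]
variable {A' : Type u} [NonUnitalNonAssocRing A'] [Module F A']

lemma map_chain (φ : A →ₙₐ[F] A') (z : A) (l : List A) :
    φ (chain z l) = chain (φ z) (l.map φ) := by
  unfold chain
  induction l generalizing z with
  | nil => rfl
  | cons a l ih => rw [List.foldl_cons, ih, map_mul, List.map_cons, List.foldl_cons]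

lemma map_dstep (φ : A →ₙₐ[F] A') {n : ℕ} (x y : Fin n → A) (z : A) :
    φ (dstep x y z) = dstep (fun i => φ (x i)) (fun i => φ (y i)) (φ z) := by
  unfold dstep
  rw [map_sum]
  apply Finset.sum_congr rfl
  intro σ _
  rw [Units.smul_def, Units.smul_def, map_zsmul, map_chain]
  congr 2
  rw [List.map_ofFn]
  congr 1
  ext i
  simp

lemma map_dstep_iter (φ : A →ₙₐ[F] A') {n : ℕ} (x y : Fin n → A) (m : ℕ) (z : A) :
    φ ((dstep x y)^[m] z) = (dstep (fun i => φ (x i)) (fun i => φ (y i)))^[m] (φ z) := by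
  induction m generalizing z with
  | zero => rfl
  | succ m ih => rw [Function.iterate_succ_apply, ih, Function.iterate_succ_apply, map_dstep]

end NAPoly

section Vanish

variable {F : Type u} [Field F] [CharZero F] {B : Type u} [NonUnitalNonAssocRing B] [Module F B]
  [IsScalarTower F B B] [SMulCommClass F B B] {𝒷 : ZMod 2 → Submodule F B}

/-- The operators generating the commutative ring. -/
def opSet (h : IsSuperalgebra 𝒷) : Set (Module.End F (VV 𝒷)) :=
  {T | (∃ x y : envelope h, T = opE h (x * y)) ∨ ∃ k : grPart F 0, T = opK 𝒷 k}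

variable (h : IsSuperalgebra 𝒷) (hT : ∀ g ∈ malcevT F, Satisfies F (envelope h) g)

include hT

lemma env_ac (x y : envelope h) : x * y = -(y * x) := by
  have h1 := hT (var F 0 * var F 1 + var F 1 * var F 0) (by simp [malcevT])
    (fun n => match n with | 0 => x | _ => y)
  simp only [var, map_add, map_mul, FreeNonUnitalNonAssocAlgebra.lift_of_apply] at h1
  have h2 : ((x * y : envelope h) : Gr F ⊗[F] B) + ((y * x : envelope h) : Gr F ⊗[F] B) = 0 :=
    congrArg (fun t : envelope h => (t : Gr F ⊗[F] B)) h1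
  exact Subtype.ext (eq_neg_of_add_eq_zero_left h2)

lemma env_malcev (x y z : envelope h) : jac x y z * x = jac x y (x * z) := by
  have h1 := hT (jac (var F 0) (var F 1) (var F 2) * var F 0 -
      jac (var F 0) (var F 1) (var F 0 * var F 2)) (by simp [malcevT])
    (fun n => match n with | 0 => x | 1 => y | _ => z)
  simp only [jac, var, map_add, map_sub, map_mul,
    FreeNonUnitalNonAssocAlgebra.lift_of_apply] at h1
  exact sub_eq_zero.1 h1

lemma env_cube : Satisfies F (envelope h) (cubeSq F) := hT _ (by simp [malcevT])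

lemma opE_comm (a b w y : envelope h) (m : VV 𝒷) :
    opE h (w * y) (opE h (a * b) m) = opE h (a * b) (opE h (w * y) m) := by
  have hm : m.val ∈ envelope h := E3_le m.mem
  have h1 := malcev_comm (L := envelope h) (by
      intro x hx
      have : (2 : F) • x = 0 := by rw [two_smul, hx]
      exact (smul_eq_zero.1 this).resolve_left two_ne_zero)
    (env_ac h hT) (env_malcev h hT) (fun m => (m : Gr F ⊗[F] B) ∈ env (C3 𝒷))
    (fun m x hm => E3_mul h hm x.2)
    (fun m m' hm hm' => Subtype.ext (E3_mul_E3 h (env_cube h hT) hm hm'))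
    (fun x y z => E2_mul h (E_mul h x.2 y.2) z.2)
    (fun m hm => by
      have := Submodule.neg_mem _ hm
      exact this) ⟨m.val, hm⟩ m.mem a b w y
  exact VV.ext (congrArg (fun t : envelope h => (t : Gr F ⊗[F] B)) h1)

lemma opSet_comm : ∀ S ∈ opSet h, ∀ T ∈ opSet h, S * T = T * S := by
  rintro S (⟨x, y, rfl⟩ | ⟨k, rfl⟩) T (⟨x', y', rfl⟩ | ⟨k', rfl⟩)
  · apply LinearMap.ext
    intro z
    exact opE_comm h hT x' y' x y z
  · apply LinearMap.ext
    intro z
    apply VV.ext
    simp only [Module.End.mul_apply, opE_apply, opK_apply]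
    exact smul_mul_env _ _ _
  · apply LinearMap.ext
    intro z
    apply VV.ext
    simp only [Module.End.mul_apply, opE_apply, opK_apply]
    exact (smul_mul_env _ _ _).symm
  · apply LinearMap.ext
    intro z
    apply VV.ext
    simp only [Module.End.mul_apply, opK_apply, smul_smul]
    rw [even_comm k.2 k'.2]

open scoped IsMulCommutative in
/-- The commutative ring of operators. -/
noncomputable abbrev opRing : CommRing (Algebra.adjoin F (opSet h)) :=
  have : IsMulCommutative (Algebra.adjoin F (opSet h)) :=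
    Algebra.isMulCommutative_adjoin F (opSet_comm h hT)
  inferInstance

/-- The vanishing theorem. -/
theorem fpoly_vanish {r s q m : ℕ} (e : Fin r → B) (o : Fin s → B)
    (he : ∀ a, e a ∈ 𝒷 0) (ho : ∀ b, o b ∈ 𝒷 1)
    (hgen : NonUnitalAlgebra.adjoin F (Set.range e ∪ Set.range o) = ⊤)
    (hm : (r + q) * s < m * q) : Satisfies F (envelope h) (fpoly F (r + q) m) := by
  classical
  intro v
  set n := r + q with hn
  unfold fpoly
  rw [map_dstep_iter]
  simp only [map_mul, var, FreeNonUnitalNonAssocAlgebra.lift_of_apply]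
  set x : Fin n → envelope h := fun i => v (3 + i) with hx
  set y : Fin n → envelope h := fun i => v (3 + n + i) with hy
  set z := v 0 * v 1 * v 2 with hz
  have hz3 : (z : Gr F ⊗[F] B) ∈ env (C3 𝒷) := E2_mul h (E_mul h (v 0).2 (v 1).2) (v 2).2
  letI : CommRing (Algebra.adjoin F (opSet h)) := opRing h hT
  let W : envelope h → envelope h → Algebra.adjoin F (opSet h) := fun x y =>
    ⟨opE h (x * y), Algebra.subset_adjoin (Or.inl ⟨x, y, rfl⟩)⟩
  let κ : grPart F 0 → Algebra.adjoin F (opSet h) := fun k => ⟨opK 𝒷 k, Algebra.subset_adjoin (Or.inr ⟨k, rfl⟩)⟩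
  choose k l hk hl c hc hdec using fun i => env_decomp h he ho hgen (x i) (x i).2
  let ge : Fin r → envelope h := fun a => ⟨1 ⊗ₜ e a, tmul_mem_env one_mem_grPart (he a)⟩
  let go : Fin n → Fin s → envelope h := fun i b => ⟨l i b ⊗ₜ o b, tmul_mem_env (hl i b) (ho b)⟩
  have hΩ : (Matrix.of fun i j => W (x i) (y j)) =
      Matrix.of fun i j => (∑ a, κ ⟨k i a, hk i a⟩ * W (ge a) (y j)) + ∑ b, W (go i b) (y j) := by
    apply Matrix.ext
    intro i j
    rw [Matrix.of_apply, Matrix.of_apply]
    apply Subtype.ext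
    apply LinearMap.ext
    intro t
    apply VV.ext
    have h1 : ((((∑ a, κ ⟨k i a, hk i a⟩ * W (ge a) (y j)) + ∑ b, W (go i b) (y j) :
        Algebra.adjoin F (opSet h)) : Module.End F (VV 𝒷)) t).val =
        (∑ a, k i a • (t.val * ((1 ⊗ₜ e a) * (y j : Gr F ⊗[F] B)))) +
          ∑ b, t.val * ((l i b ⊗ₜ o b) * (y j : Gr F ⊗[F] B)) := by
      rw [Subalgebra.coe_add, LinearMap.add_apply, VV.val_add, AddSubmonoidClass.coe_finsetSum,
        AddSubmonoidClass.coe_finsetSum, LinearMap.sum_apply, LinearMap.sum_apply, VV.val_sum,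
        VV.val_sum]
      rfl
    rw [h1]
    show t.val * ((x i : Gr F ⊗[F] B) * (y j : Gr F ⊗[F] B)) = _
    have h2 : t.val * (c i * (y j : Gr F ⊗[F] B)) = 0 :=
      E3_mul_E3 h (env_cube h hT) t.mem (E2_mul h (hc i) (y j).2)
    rw [hdec i, add_mul, add_mul, mul_add, mul_add, h2, add_zero, Finset.sum_mul, Finset.sum_mul,
      Finset.mul_sum, Finset.mul_sum]
    congr 1
    apply Finset.sum_congr rfl
    intro a _
    have h3 : k i a ⊗ₜ[F] e a = k i a • ((1 : Gr F) ⊗ₜ[F] e a) := by
      rw [TensorProduct.smul_tmul', smul_eq_mul, mul_one]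
    rw [h3, smul_mul_env, mul_smul_env (hk i a) t.mem]
  have hdet := det_pow_eq_zero (R := Algebra.adjoin F (opSet h)) (n := n) (r := r) (s := s)
    (q := q) (m := m) hn hm
    (fun i a => κ ⟨k i a, hk i a⟩) (fun a j => W (ge a) (y j)) (fun i b j => W (go i b) (y j))
    (by
      intro i b j j'
      apply Subtype.ext
      apply LinearMap.ext
      intro z
      apply VV.ext
      show z.val * ((l i b ⊗ₜ o b) * (y j' : Gr F ⊗[F] B)) *
        ((l i b ⊗ₜ o b) * (y j : Gr F ⊗[F] B)) = 0
      exact odd_mul_zero (hl i b) (o b) (y j').2 (y j).2 (E3_le z.mem))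
  rw [← hΩ] at hdet
  -- action of the determinant
  have hchain : ∀ (L : List (envelope h × envelope h)) (t : VV 𝒷),
      ((((L.map (fun p => W p.1 p.2)).prod : Algebra.adjoin F (opSet h)) :
        Module.End F (VV 𝒷)) t).val =
      chain t.val (L.map (fun p => (p.1 : Gr F ⊗[F] B) * (p.2 : Gr F ⊗[F] B))) := by
    intro L
    induction L with
    | nil => intro t; rfl
    | cons p L ih =>
      intro t
      rw [List.map_cons, List.prod_cons, mul_comm, Subalgebra.coe_mul, Module.End.mul_apply, ih,
        List.map_cons]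
      rfl
  set D : Algebra.adjoin F (opSet h) := (Matrix.of fun i j => W (x i) (y j)).det with hD
  have hact : ∀ t : VV 𝒷, ((D : Module.End F (VV 𝒷)) t).val =
      dstep (fun i => (x i : Gr F ⊗[F] B)) (fun i => (y i : Gr F ⊗[F] B)) t.val := by
    intro t
    rw [hD, Matrix.det_apply, AddSubmonoidClass.coe_finsetSum, LinearMap.sum_apply, VV.val_sum]
    unfold dstep
    apply Finset.sum_congr rfl
    intro σ _
    have h4 := hchain (List.ofFn fun i => (x (σ i), y i)) t
    rw [List.map_ofFn, List.map_ofFn, List.prod_ofFn] at h4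
    have h5 : ((((Equiv.Perm.sign σ • ∏ i, (Matrix.of fun i j => W (x i) (y j)) (σ i) i :
        Algebra.adjoin F (opSet h))) : Module.End F (VV 𝒷)) t).val =
        Equiv.Perm.sign σ • ((((∏ i, (Matrix.of fun i j => W (x i) (y j)) (σ i) i :
        Algebra.adjoin F (opSet h))) : Module.End F (VV 𝒷)) t).val := by
      rcases Int.units_eq_one_or (Equiv.Perm.sign σ) with h6 | h6
      · rw [h6, one_smul, one_smul]
      · rw [h6, Units.neg_smul, one_smul, Units.neg_smul, one_smul]
        rfl
    rw [h5]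
    congr 1
  have hiter : ∀ (m : ℕ) (t : VV 𝒷), (((D ^ m : Algebra.adjoin F (opSet h)) :
      Module.End F (VV 𝒷)) t).val =
      (dstep (fun i => (x i : Gr F ⊗[F] B)) (fun i => (y i : Gr F ⊗[F] B)))^[m] t.val := by
    intro m
    induction m with
    | zero => intro t; rfl
    | succ m ih =>
      intro t
      rw [pow_succ, Subalgebra.coe_mul, Module.End.mul_apply, ih, hact,
        Function.iterate_succ_apply]
  have hfin := hiter m (VV.mk (z : Gr F ⊗[F] B) hz3)
  rw [hdet] at hfin
  have h7 := map_dstep_iter (NonUnitalSubalgebraClass.subtype (envelope h)) x y m z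
  apply Subtype.ext
  exact h7.trans hfin.symm

end Vanish

end Pool.Agent.Lib.Caf1090
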