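import Pool.Agent.Lib.Caf1090.Vanish

namespace Pool.Agent.Lib.Caf1090

universe u

variable (F : Type u) [Field F] (n : ℕ)

/-- The Heisenberg algebra, as a vector space. -/
abbrev HH : Type u := ((Fin n → F) × (Fin n → F)) × F

variable {F n}

/-- The derivation `∑ aᵢ ∂ᵢ`. -/
noncomputable def DD (a : Fin n → F) :
    Derivation F (MvPolynomial (Fin n) F) (MvPolynomial (Fin n) F) :=
  MvPolynomial.mkDerivationEquiv F (fun i => MvPolynomial.C (a i))

/-- The linear form `∑ bᵢ Xᵢ`. -/
noncomputable def LL (b : Fin n → F) : MvPolynomial (Fin n) F :=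
  ∑ i, MvPolynomial.C (b i) * MvPolynomial.X i

lemma DD_X (a : Fin n → F) (i : Fin n) : DD a (MvPolynomial.X i) = MvPolynomial.C (a i) :=
  MvPolynomial.mkDerivation_X _ _ _

lemma DD_add (a a' : Fin n → F) : DD (a + a') = DD a + DD a' := by
  apply MvPolynomial.derivation_ext
  intro i
  simp [DD_X]

lemma DD_smul (c : F) (a : Fin n → F) : DD (c • a) = c • DD a := by
  apply MvPolynomial.derivation_ext
  intro i
  simp [DD_X, MvPolynomial.smul_eq_C_mul]

lemma LL_add (a a' : Fin n → F) : LL (a + a') = LL a + LL a' := by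
  simp [LL, add_mul, Finset.sum_add_distrib]

lemma LL_smul (c : F) (a : Fin n → F) : LL (c • a) = c • LL a := by
  simp [LL, MvPolynomial.smul_eq_C_mul, Finset.mul_sum, mul_assoc]

lemma DD_LL (a b : Fin n → F) : DD a (LL b) = MvPolynomial.C (∑ i, a i * b i) := by
  simp [LL, DD_X, mul_comm]

lemma DD_comm (a a' : Fin n → F) (p : MvPolynomial (Fin n) F) :
    DD a (DD a' p) = DD a' (DD a p) := by
  have h : ⁅DD a, DD a'⁆ = 0 := by
    apply MvPolynomial.derivation_ext
    intro i
    simp [Derivation.commutator_apply, DD_X]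
  have h2 := congrArg (fun D => D p) h
  simp only [Derivation.commutator_apply, Derivation.coe_zero, Pi.zero_apply] at h2
  exact sub_eq_zero.1 h2

/-- The action of the Heisenberg algebra on polynomials. -/
noncomputable def rho (h : HH F n) (p : MvPolynomial (Fin n) F) : MvPolynomial (Fin n) F :=
  DD h.1.1 p + LL h.1.2 * p + h.2 • p

/-- The cocycle. -/
def coc (h h' : HH F n) : F := ∑ i, h'.1.1 i * h.1.2 i - ∑ i, h.1.1 i * h'.1.2 i

lemma rho_rho (h h' : HH F n) (p : MvPolynomial (Fin n) F) :
    rho h' (rho h p) - rho h (rho h' p) = coc h h' • p := by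
  simp only [rho, map_add, Derivation.leibniz, DD_LL, smul_eq_mul,
    DD_comm h.1.1 h'.1.1 p, coc, MvPolynomial.smul_eq_C_mul, map_sub, MvPolynomial.derivation_C]
  ring

/-- The semidirect product of the polynomial module with the Heisenberg algebra. -/
def WW (F : Type u) [Field F] (n : ℕ) : Type u := MvPolynomial (Fin n) F × HH F n

noncomputable instance : AddCommGroup (WW F n) :=
  inferInstanceAs (AddCommGroup (MvPolynomial (Fin n) F × HH F n))

noncomputable instance : Module F (WW F n) :=
  inferInstanceAs (Module F (MvPolynomial (Fin n) F × HH F n))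

lemma rho_add_left (h h' : HH F n) (p : MvPolynomial (Fin n) F) :
    rho (h + h') p = rho h p + rho h' p := by
  simp only [rho, Prod.fst_add, Prod.snd_add, DD_add, LL_add, Derivation.add_apply, add_mul,
    add_smul]
  ring

lemma rho_add_right (h : HH F n) (p p' : MvPolynomial (Fin n) F) :
    rho h (p + p') = rho h p + rho h p' := by
  simp only [rho, map_add, mul_add, smul_add]
  ring

lemma rho_smul_left (c : F) (h : HH F n) (p : MvPolynomial (Fin n) F) :
    rho (c • h) p = c • rho h p := by
  simp only [rho, Prod.smul_fst, Prod.smul_snd, DD_smul, LL_smul, Derivation.smul_apply,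
    smul_mul_assoc, smul_add, smul_eq_mul, mul_smul]

lemma rho_smul_right (c : F) (h : HH F n) (p : MvPolynomial (Fin n) F) :
    rho h (c • p) = c • rho h p := by
  simp only [rho, Derivation.map_smul, mul_smul_comm, smul_add, smul_comm c]

lemma rho_zero_left (p : MvPolynomial (Fin n) F) : rho (0 : HH F n) p = 0 := by
  have := rho_smul_left (0 : F) (0 : HH F n) p
  rwa [zero_smul, zero_smul] at this

lemma rho_zero_right (h : HH F n) : rho h (0 : MvPolynomial (Fin n) F) = 0 := by
  have := rho_smul_right (0 : F) h (0 : MvPolynomial (Fin n) F)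
  rwa [zero_smul, zero_smul] at this

lemma rho_central (c : F) (p : MvPolynomial (Fin n) F) :
    rho ((0, c) : HH F n) p = c • p := by
  have h1 : DD (0 : Fin n → F) = 0 := by
    have := DD_smul (0 : F) (0 : Fin n → F)
    rwa [zero_smul, zero_smul] at this
  have h2 : LL (0 : Fin n → F) = 0 := by
    have := LL_smul (0 : F) (0 : Fin n → F)
    rwa [zero_smul, zero_smul] at this
  simp only [rho, Prod.fst_zero, Prod.snd_zero, h1, h2, Derivation.coe_zero, Pi.zero_apply,
    zero_mul, zero_add]

lemma coc_add_left (h h' h'' : HH F n) : coc (h + h') h'' = coc h h'' + coc h' h'' := by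
  simp only [coc, Prod.fst_add, Prod.snd_add, Pi.add_apply, add_mul, mul_add,
    Finset.sum_add_distrib]
  ring

lemma coc_add_right (h h' h'' : HH F n) : coc h (h' + h'') = coc h h' + coc h h'' := by
  simp only [coc, Prod.fst_add, Prod.snd_add, Pi.add_apply, add_mul, mul_add,
    Finset.sum_add_distrib]
  ring

lemma coc_smul_left (c : F) (h h' : HH F n) : coc (c • h) h' = c * coc h h' := by
  simp only [coc, Prod.smul_fst, Prod.smul_snd, Pi.smul_apply, smul_eq_mul, mul_sub,
    Finset.mul_sum]
  congr 1 <;> apply Finset.sum_congr rfl <;> intro i _ <;> ring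

lemma coc_smul_right (c : F) (h h' : HH F n) : coc h (c • h') = c * coc h h' := by
  simp only [coc, Prod.smul_fst, Prod.smul_snd, Pi.smul_apply, smul_eq_mul, mul_sub,
    Finset.mul_sum]
  congr 1 <;> apply Finset.sum_congr rfl <;> intro i _ <;> ring

lemma coc_central_left (c : F) (h : HH F n) : coc ((0, c) : HH F n) h = 0 := by
  simp [coc]

lemma coc_skew (h h' : HH F n) : coc h' h = - coc h h' := by
  simp [coc]

/-- The product. -/
noncomputable def mulW (x y : WW F n) : WW F n := (rho y.2 x.1 - rho x.2 y.1, (0, coc x.2 y.2))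

lemma WW_add (x y : WW F n) : x + y = (x.1 + y.1, x.2 + y.2) := rfl
lemma WW_zero : (0 : WW F n) = (0, 0) := rfl
lemma WW_smul (c : F) (x : WW F n) : c • x = (c • x.1, c • x.2) := rfl

noncomputable instance : NonUnitalNonAssocRing (WW F n) where
  mul := mulW
  left_distrib x y z := by
    show mulW x (y + z) = mulW x y + mulW x z
    simp only [mulW, WW_add, rho_add_left, rho_add_right, coc_add_right]
    refine Prod.ext ?_ (Prod.ext ?_ ?_)
    · show _ = _ + _
      ring
    · exact (add_zero _).symm
    · rfl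
  right_distrib x y z := by
    show mulW (x + y) z = mulW x z + mulW y z
    simp only [mulW, WW_add, rho_add_left, rho_add_right, coc_add_left]
    refine Prod.ext ?_ (Prod.ext ?_ ?_)
    · show _ = _ + _
      ring
    · exact (add_zero _).symm
    · rfl
  zero_mul x := by
    show mulW 0 x = 0
    refine Prod.ext ?_ (Prod.ext ?_ ?_)
    · show rho x.2 0 - rho 0 x.1 = 0
      rw [rho_zero_right, rho_zero_left, sub_zero]
    · rfl
    · exact coc_central_left 0 x.2
  mul_zero x := by
    show mulW x 0 = 0
    refine Prod.ext ?_ (Prod.ext ?_ ?_)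
    · show rho 0 x.1 - rho x.2 0 = 0
      rw [rho_zero_right, rho_zero_left, sub_zero]
    · rfl
    · show coc x.2 0 = 0
      rw [coc_skew]
      exact neg_eq_zero.2 (coc_central_left 0 x.2)

lemma mul_def' (x y : WW F n) : x * y = (rho y.2 x.1 - rho x.2 y.1, (0, coc x.2 y.2)) := rfl

instance : IsScalarTower F (WW F n) (WW F n) where
  smul_assoc c x y := by
    refine Prod.ext ?_ (Prod.ext ?_ ?_)
    · show rho y.2 (c • x.1) - rho (c • x.2) y.1 = c • (rho y.2 x.1 - rho x.2 y.1)
      rw [rho_smul_left, rho_smul_right, smul_sub]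
    · show (0 : (Fin n → F) × (Fin n → F)) = c • 0
      rw [smul_zero]
    · exact coc_smul_left c x.2 y.2

instance : SMulCommClass F (WW F n) (WW F n) where
  smul_comm c x y := by
    refine Prod.ext ?_ (Prod.ext ?_ ?_)
    · show c • (rho y.2 x.1 - rho x.2 y.1) = rho (c • y.2) x.1 - rho x.2 (c • y.1)
      rw [rho_smul_left, rho_smul_right, smul_sub]
    · show c • (0 : (Fin n → F) × (Fin n → F)) = 0
      rw [smul_zero]
    · exact (coc_smul_right c x.2 y.2).symm

lemma cube_central (x y z : WW F n) : (x * y * z).2 = 0 := by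
  rw [mul_def', mul_def']
  exact Prod.ext rfl (coc_central_left _ _)

theorem WW_lie : ∀ g ∈ lieT F, Satisfies F (WW F n) g := by
  intro g hg v
  simp only [lieT, Set.mem_insert_iff, Set.mem_singleton_iff] at hg
  rcases hg with rfl | rfl | rfl
  · simp only [var, map_add, map_mul, FreeNonUnitalNonAssocAlgebra.lift_of_apply]
    refine Prod.ext ?_ (Prod.ext ?_ ?_)
    · show rho (v 1).2 (v 0).1 - rho (v 0).2 (v 1).1 + (rho (v 0).2 (v 1).1 - rho (v 1).2 (v 0).1) = 0
      ring
    · exact add_zero _
    · show coc _ _ + coc _ _ = 0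
      rw [coc_skew (v 0).2 (v 1).2, add_neg_cancel]
  · simp only [jac, var, map_add, map_mul, FreeNonUnitalNonAssocAlgebra.lift_of_apply]
    refine Prod.ext ?_ ?_
    · show (v 0 * v 1 * v 2).1 + (v 1 * v 2 * v 0).1 + (v 2 * v 0 * v 1).1 = 0
      have key : ∀ x y z : WW F n, (x * y * z).1 =
          rho z.2 (rho y.2 x.1) - rho z.2 (rho x.2 y.1) - coc x.2 y.2 • z.1 := by
        intro x y z
        rw [mul_def', mul_def']
        show rho z.2 (rho y.2 x.1 - rho x.2 y.1) - rho (0, coc x.2 y.2) z.1 = _
        rw [rho_central, sub_eq_add_neg (rho y.2 x.1), rho_add_right, ← neg_one_smul F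
          (rho x.2 y.1), rho_smul_right, neg_one_smul]
        ring
      rw [key, key, key]
      have e1 := rho_rho (v 1).2 (v 2).2 (v 0).1
      have e2 := rho_rho (v 2).2 (v 0).2 (v 1).1
      have e3 := rho_rho (v 0).2 (v 1).2 (v 2).1
      linear_combination e1 + e2 + e3
    · show (v 0 * v 1 * v 2).2 + (v 1 * v 2 * v 0).2 + (v 2 * v 0 * v 1).2 = 0
      rw [cube_central, cube_central, cube_central, add_zero, add_zero]
  · simp only [cubeSq, var, map_mul, FreeNonUnitalNonAssocAlgebra.lift_of_apply]
    rw [mul_def', cube_central, cube_central, rho_zero_left, rho_zero_left, sub_zero]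
    exact Prod.ext rfl (Prod.ext rfl (coc_central_left 0 _))

end Pool.Agent.Lib.Caf1090
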